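import Pool.Agent.N920.TW.Growth

/-!
# Exact growth
-/

namespace Pool.Agent.N920.TW

open Finset Real Filter Topology

theorem squeeze (N : ℕ → ℕ) (x e : ℕ → ℝ) (j : ℕ) (C D : ℝ)
    (hx : Tendsto x atTop atTop) (he : Tendsto (fun k => e k / x k) atTop (𝓝 0))
    (hup : ∀ᶠ k in atTop, log (N k) ≤ j * x k + D + C * e k)
    (hlow : ∀ᶠ k in atTop, j * x k - D ≤ log (N k)) :
    Tendsto (fun k => log (N k) / x k) atTop (𝓝 (j : ℝ)) := by
  have hD : Tendsto (fun k => D / x k) atTop (𝓝 0) := tendsto_const_nhds.div_atTop hx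
  have h1 : Tendsto (fun k => (j : ℝ) - D / x k) atTop (𝓝 j) := by
    simpa using (tendsto_const_nhds (x := (j : ℝ))).sub hD
  have h2 : Tendsto (fun k => (j : ℝ) + D / x k + C * (e k / x k)) atTop (𝓝 j) := by
    simpa using ((tendsto_const_nhds (x := (j : ℝ))).add hD).add (he.const_mul C)
  refine tendsto_of_tendsto_of_tendsto_of_le_of_le' h1 h2 ?_ ?_
  · filter_upwards [hlow, hx.eventually_gt_atTop 0] with k hk hpos
    rw [le_div_iff₀ hpos, sub_mul, div_mul_cancel₀ _ hpos.ne']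
    exact hk
  · filter_upwards [hup, hx.eventually_gt_atTop 0] with k hk hpos
    rw [div_le_iff₀ hpos]
    calc log (N k) ≤ j * x k + D + C * e k := hk
      _ = (j + D / x k + C * (e k / x k)) * x k := by field_simp

/-- From the bound on the order to its logarithm. -/
theorem log_upper {N j : ℕ} {W x y : ℝ} (hx : 0 ≤ x) (hy : 0 ≤ y) (hW : 0 ≤ W)
    (hWx : W ≤ 4 * exp x) (h : (N : ℝ) ≤ W ^ j * exp y) :
    log N ≤ j * x + j * log 4 + y := by
  have hlog4 : 0 < log 4 := log_pos (by norm_num)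
  rcases Nat.eq_zero_or_pos N with rfl | hN
  · rw [Nat.cast_zero, log_zero]
    positivity
  · have hN' : (0 : ℝ) < N := by exact_mod_cast hN
    have h1 : (N : ℝ) ≤ (4 * exp x) ^ j * exp y :=
      h.trans (mul_le_mul_of_nonneg_right (pow_le_pow_left₀ hW hWx _) (exp_pos _).le)
    have h2 := log_le_log hN' h1
    rw [log_mul (by positivity) (exp_pos _).ne', log_exp, log_pow,
      log_mul (by norm_num) (exp_pos _).ne', log_exp] at h2
    linarith

theorem log_lower {N j : ℕ} {W x : ℝ} (hWx : exp x ≤ 4 * W) (h : W ^ j ≤ (N : ℝ)) :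
    j * x - j * log 4 ≤ log N := by
  have hW : 0 < W := by
    have := exp_pos x
    linarith
  have h2 := log_le_log (by positivity) h
  rw [log_pow] at h2
  have h3 := log_le_log (exp_pos x) hWx
  rw [log_exp, log_mul (by norm_num) hW.ne'] at h3
  have h4 : (j : ℝ) * x ≤ j * (log 4 + log W) := mul_le_mul_of_nonneg_left h3 (Nat.cast_nonneg j)
  linarith

theorem natLog_le {T : ℕ} (hT : T ≠ 0) : (Nat.log 2 T : ℝ) * log 2 ≤ log T := by
  have h1 : ((2 ^ Nat.log 2 T : ℕ) : ℝ) ≤ T := by exact_mod_cast Nat.pow_log_le_self 2 hT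
  have h2 := log_le_log (by positivity) h1
  push_cast at h2
  rwa [log_pow] at h2

/-- The condition of the lower bound holds for large `k`. -/
theorem cond_low (θ : ℝ) (h0 : 0 < θ) (j : ℕ) (hj : θ * j < 1) :
    ∀ᶠ k : ℕ in atTop, ∀ T : ℕ, T ≠ 0 → (T : ℝ) ≤ 3 * exp ((k : ℝ) ^ θ) →
      (2 * Nat.log 2 T + 1) ^ j < k := by
  have hx : Tendsto (fun k : ℕ => (k : ℝ) ^ θ) atTop atTop :=
    (tendsto_rpow_atTop h0).comp tendsto_natCast_atTop_atTop
  have hy : Tendsto (fun k : ℕ => (k : ℝ) ^ (1 - θ * j)) atTop atTop :=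
    (tendsto_rpow_atTop (by linarith)).comp tendsto_natCast_atTop_atTop
  filter_upwards [hx.eventually_ge_atTop 8, hy.eventually_gt_atTop ((4 : ℝ) ^ j),
    eventually_ge_atTop 1] with k hk1 hk2 hk3 T hT0 hT
  have hkpos : (0 : ℝ) < k := by exact_mod_cast hk3
  have hl2 : (0.69 : ℝ) < log 2 := by
    have := log_two_gt_d9
    linarith
  have h1 := natLog_le hT0
  have hTpos : (0 : ℝ) < T := by
    have : 0 < T := Nat.pos_of_ne_zero hT0
    exact_mod_cast this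
  have h2 := log_le_log hTpos hT
  rw [log_mul (by norm_num) (exp_pos _).ne', log_exp] at h2
  have h3 : log 3 ≤ 2 := by
    have := log_le_sub_one_of_pos (show (0 : ℝ) < 3 by norm_num)
    linarith
  have h4 : (2 * Nat.log 2 T + 1 : ℝ) ≤ 4 * (k : ℝ) ^ θ := by
    have h5 : (Nat.log 2 T : ℝ) * 0.69 ≤ (Nat.log 2 T : ℝ) * log 2 :=
      mul_le_mul_of_nonneg_left hl2.le (Nat.cast_nonneg _)
    nlinarith
  have h5 : (2 * Nat.log 2 T + 1 : ℝ) ^ j ≤ (4 * (k : ℝ) ^ θ) ^ j :=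
    pow_le_pow_left₀ (by positivity) h4 _
  have h6 : (4 * (k : ℝ) ^ θ) ^ j < k := by
    rw [mul_pow, ← rpow_natCast ((k : ℝ) ^ θ) j, ← rpow_mul hkpos.le]
    have h7 : (k : ℝ) ^ (1 - θ * j) * (k : ℝ) ^ (θ * j) = k := by
      rw [← rpow_add hkpos]
      simp
    have h8 : 0 < (k : ℝ) ^ (θ * j) := rpow_pos_of_pos hkpos _
    calc (4 : ℝ) ^ j * (k : ℝ) ^ (θ * j) < (k : ℝ) ^ (1 - θ * j) * (k : ℝ) ^ (θ * j) :=
          mul_lt_mul_of_pos_right hk2 h8
      _ = k := h7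
  have h7 : ((2 * Nat.log 2 T + 1 : ℕ) : ℝ) ^ j < k := by
    push_cast
    linarith
  exact_mod_cast h7

theorem e_div (θ : ℝ) (j : ℕ) (hj : 1 < θ * (j + 1)) :
    Tendsto (fun k : ℕ => (k : ℝ) ^ ((1 : ℝ) / ((j : ℝ) + 1)) / (k : ℝ) ^ θ) atTop (𝓝 0) := by
  have hj0 : (0 : ℝ) < (j : ℝ) + 1 := by positivity
  have h1 : 0 < θ - 1 / ((j : ℝ) + 1) := by
    have : 1 / ((j : ℝ) + 1) < θ := by
      rw [div_lt_iff₀ hj0]
      exact hj
    linarith
  have h2 : Tendsto (fun k : ℕ => (k : ℝ) ^ (-(θ - 1 / ((j : ℝ) + 1)))) atTop (𝓝 0) :=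
    (tendsto_rpow_neg_atTop h1).comp tendsto_natCast_atTop_atTop
  refine h2.congr' ?_
  filter_upwards [eventually_ge_atTop 1] with k hk
  have hkpos : (0 : ℝ) < k := by exact_mod_cast hk
  rw [← rpow_sub hkpos]
  congr 1
  ring

theorem growth_tw (θ : ℝ) (h0 : 0 < θ) (j : ℕ) (hj1 : 1 ≤ j) (hj2 : θ * j < 1)
    (hj3 : 1 < θ * (j + 1)) :
    Tendsto (fun k : ℕ => log (twOrder k ⌊exp ((k : ℝ) ^ θ)⌋₊) / (k : ℝ) ^ θ) atTop
      (𝓝 (j : ℝ)) := by
  obtain ⟨C, hC, h⟩ := upper_tw j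
  have hx : Tendsto (fun k : ℕ => (k : ℝ) ^ θ) atTop atTop :=
    (tendsto_rpow_atTop h0).comp tendsto_natCast_atTop_atTop
  refine squeeze (fun k => twOrder k ⌊exp ((k : ℝ) ^ θ)⌋₊) (fun k => (k : ℝ) ^ θ)
    (fun k => (k : ℝ) ^ ((1 : ℝ) / ((j : ℝ) + 1))) j C (j * log 4) hx (e_div θ j hj3) ?_ ?_
  · refine Eventually.of_forall (fun k => ?_)
    have hx0 : 0 ≤ (k : ℝ) ^ θ := by positivity
    have h1 : (⌊exp ((k : ℝ) ^ θ)⌋₊ : ℝ) ≤ exp ((k : ℝ) ^ θ) := Nat.floor_le (exp_pos _).le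
    have h2 : (1 : ℝ) ≤ exp ((k : ℝ) ^ θ) := one_le_exp hx0
    refine log_upper (W := 2 * ((⌊exp ((k : ℝ) ^ θ)⌋₊ : ℝ) + 1)) hx0 (by positivity)
      (by positivity) (by linarith) ?_
    exact twOrder_le (by positivity) (fun V _ G g1 g2 => h V G _ k g1 g2)
  · filter_upwards [cond_low θ h0 j hj2] with k hk
    have hx0 : 0 ≤ (k : ℝ) ^ θ := by positivity
    have h1 : (⌊exp ((k : ℝ) ^ θ)⌋₊ : ℝ) ≤ exp ((k : ℝ) ^ θ) := Nat.floor_le (exp_pos _).le
    have h2 : (1 : ℝ) ≤ exp ((k : ℝ) ^ θ) := one_le_exp hx0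
    have h3 := Nat.lt_floor_add_one (exp ((k : ℝ) ^ θ))
    refine log_lower (W := ((⌊exp ((k : ℝ) ^ θ)⌋₊ : ℝ) + 2) / 2) (by linarith) ?_
    refine lower_tw j k _ hj1 (hk _ (by omega) ?_)
    push_cast
    linarith

theorem growth_mw (θ : ℝ) (h0 : 0 < θ) (j : ℕ) (hj1 : 1 ≤ j) (hj2 : θ * j < 1)
    (hj3 : 1 < θ * (j + 1)) :
    Tendsto (fun k : ℕ => log (mwOrder k ⌊exp ((k : ℝ) ^ θ)⌋₊) / (k : ℝ) ^ θ) atTop
      (𝓝 (j : ℝ)) := by
  obtain ⟨C, hC, h⟩ := upper_mw j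
  have hx : Tendsto (fun k : ℕ => (k : ℝ) ^ θ) atTop atTop :=
    (tendsto_rpow_atTop h0).comp tendsto_natCast_atTop_atTop
  refine squeeze (fun k => mwOrder k ⌊exp ((k : ℝ) ^ θ)⌋₊) (fun k => (k : ℝ) ^ θ)
    (fun k => (k : ℝ) ^ ((1 : ℝ) / ((j : ℝ) + 1))) j C (j * log 4) hx (e_div θ j hj3) ?_ ?_
  · refine Eventually.of_forall (fun k => ?_)
    have hx0 : 0 ≤ (k : ℝ) ^ θ := by positivity
    have h1 : (⌊exp ((k : ℝ) ^ θ)⌋₊ : ℝ) ≤ exp ((k : ℝ) ^ θ) := Nat.floor_le (exp_pos _).le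
    have h2 : (1 : ℝ) ≤ exp ((k : ℝ) ^ θ) := one_le_exp hx0
    refine log_upper (W := 2 * (⌊exp ((k : ℝ) ^ θ)⌋₊ : ℝ)) hx0 (by positivity)
      (by positivity) (by linarith) ?_
    exact mwOrder_le (by positivity) (fun V _ G g1 g2 => h V G _ k g1 g2)
  · filter_upwards [cond_low θ h0 j hj2, hx.eventually_ge_atTop 2] with k hk hk2
    have hx0 : 0 ≤ (k : ℝ) ^ θ := by positivity
    have h1 : (⌊exp ((k : ℝ) ^ θ)⌋₊ : ℝ) ≤ exp ((k : ℝ) ^ θ) := Nat.floor_le (exp_pos _).le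
    have h2 : (3 : ℝ) ≤ exp ((k : ℝ) ^ θ) := by
      have := add_one_le_exp ((k : ℝ) ^ θ)
      linarith
    have h3 := Nat.lt_floor_add_one (exp ((k : ℝ) ^ θ))
    have h4 : 2 ≤ ⌊exp ((k : ℝ) ^ θ)⌋₊ := Nat.le_floor (by push_cast; linarith)
    refine log_lower (W := ((⌊exp ((k : ℝ) ^ θ)⌋₊ : ℝ)) / 2) (by linarith) ?_
    refine lower_mw j k _ hj1 h4 (hk _ (by omega) ?_)
    linarith

theorem floor_facts (θ : ℝ) (h0 : 0 < θ) (h1 : θ < 1) (hne : ∀ j : ℕ, θ * j ≠ 1) :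
    1 ≤ ⌊1 / θ⌋₊ ∧ θ * ⌊1 / θ⌋₊ < 1 ∧ 1 < θ * (⌊1 / θ⌋₊ + 1) := by
  have h2 : (1 : ℝ) ≤ 1 / θ := by
    rw [le_div_iff₀ h0]
    linarith
  refine ⟨Nat.le_floor (by push_cast; exact h2), ?_, ?_⟩
  · have h3 : (⌊1 / θ⌋₊ : ℝ) ≤ 1 / θ := Nat.floor_le (by positivity)
    have h4 : θ * ⌊1 / θ⌋₊ ≤ θ * (1 / θ) := mul_le_mul_of_nonneg_left h3 h0.le
    rw [mul_one_div, div_self h0.ne'] at h4
    exact lt_of_le_of_ne h4 (hne _)
  · have h3 := Nat.lt_floor_add_one (1 / θ)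
    have h4 := mul_lt_mul_of_pos_left h3 h0
    rw [mul_one_div, div_self h0.ne'] at h4
    exact h4

/-- Erdős's lower bound. -/
theorem ramsey_lower (k : ℕ) (hk : 4 ≤ k) : exp (log 2 / 2 * k - 2) ≤ (ramsey k : ℝ) - 1 := by
  set m := (k - 2) / 2 with hm
  obtain ⟨G, h1, h2⟩ := Pool.Agent.Y422.TW.erdos m (by omega)
  have hG : NoMono G k := ⟨h1.mono (by omega), h2.mono (by omega)⟩
  have h3 := card_lt_ramsey hG
  rw [Fintype.card_fin] at h3
  have h4 : ((2 ^ m : ℕ) : ℝ) + 1 ≤ ramsey k := by exact_mod_cast h3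
  have h5 : exp (log 2 / 2 * k - 2) ≤ ((2 ^ m : ℕ) : ℝ) := by
    push_cast
    rw [← exp_log (show (0 : ℝ) < 2 by norm_num), ← exp_nat_mul, exp_log (by norm_num)]
    apply exp_le_exp.2
    have h6 : k ≤ 2 * m + 3 := by omega
    have h7 : (k : ℝ) ≤ 2 * m + 3 := by exact_mod_cast h6
    have h8 : 0 < log 2 := log_pos (by norm_num)
    have h9 : log 2 < 1 := by
      have := log_two_lt_d9
      linarith
    nlinarith
  linarith

theorem sqrt_div (lam : ℝ) (h0 : 0 < lam) : Tendsto (fun k : ℕ => Real.sqrt k / (lam * k)) atTop (𝓝 0) := by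
  have h2 : Tendsto (fun k : ℕ => (1 / lam) * (k : ℝ) ^ (-(1 / 2 : ℝ))) atTop (𝓝 0) := by
    simpa using ((tendsto_rpow_neg_atTop (show (0 : ℝ) < 1 / 2 by norm_num)).comp
      tendsto_natCast_atTop_atTop).const_mul (1 / lam)
  refine h2.congr' ?_
  filter_upwards [eventually_ge_atTop 1] with k hk
  have hkpos : (0 : ℝ) < k := by exact_mod_cast hk
  rw [sqrt_eq_rpow, one_div_mul_eq_div, div_eq_div_iff h0.ne' (by positivity)]
  have : (k : ℝ) ^ (-(1 / 2 : ℝ)) * k = (k : ℝ) ^ (1 / 2 : ℝ) := by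
    rw [← rpow_add_one hkpos.ne']
    norm_num
  calc (k : ℝ) ^ (-(1 / 2 : ℝ)) * (lam * k) = lam * ((k : ℝ) ^ (-(1 / 2 : ℝ)) * k) := by ring
    _ = _ := by rw [this, mul_comm]

theorem upper_one_tw : ∃ C : ℝ, 0 < C ∧ ∀ k t : ℕ,
    (twOrder k t : ℝ) ≤ 2 * ((t : ℝ) + 1) * exp (C * Real.sqrt k) := by
  obtain ⟨C, hC, h⟩ := upper_tw 1
  refine ⟨C, hC, fun k t => twOrder_le (by positivity) (fun V _ G g1 g2 => ?_)⟩
  have := h V G t k g1 g2
  rw [pow_one, Nat.cast_one, one_add_one_eq_two, ← sqrt_eq_rpow] at this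
  exact this

theorem upper_one_mw : ∃ C : ℝ, 0 < C ∧ ∀ k c : ℕ,
    (mwOrder k c : ℝ) ≤ 2 * (c : ℝ) * exp (C * Real.sqrt k) := by
  obtain ⟨C, hC, h⟩ := upper_mw 1
  refine ⟨C, hC, fun k t => mwOrder_le (by positivity) (fun V _ G g1 g2 => ?_)⟩
  have := h V G t k g1 g2
  rw [pow_one, Nat.cast_one, one_add_one_eq_two, ← sqrt_eq_rpow] at this
  exact this

theorem rate_tw (lam : ℝ) (h0 : 0 < lam) (h1 : lam ≤ log 2 / 2) :
    Tendsto (fun k : ℕ => log (twOrder k ⌊exp (lam * k)⌋₊) / k) atTop (𝓝 lam) := by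
  obtain ⟨C, hC, h⟩ := upper_one_tw
  have hx : Tendsto (fun k : ℕ => lam * (k : ℝ)) atTop atTop :=
    tendsto_natCast_atTop_atTop.const_mul_atTop h0
  have key := squeeze (fun k => twOrder k ⌊exp (lam * k)⌋₊) (fun k => lam * k)
    (fun k => Real.sqrt k) 1 C 2 hx (sqrt_div lam h0) ?_ ?_
  · rw [Nat.cast_one] at key
    have h2 := key.mul_const lam
    rw [one_mul] at h2
    refine h2.congr' ?_
    filter_upwards [eventually_ge_atTop 1] with k hk
    have hkpos : (0 : ℝ) < k := by exact_mod_cast hk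
    field_simp
  · refine Eventually.of_forall (fun k => ?_)
    have hx0 : 0 ≤ lam * (k : ℝ) := by positivity
    have h1 : (⌊exp (lam * k)⌋₊ : ℝ) ≤ exp (lam * k) := Nat.floor_le (exp_pos _).le
    have h2 : (1 : ℝ) ≤ exp (lam * k) := one_le_exp hx0
    have h3 := log_upper (N := twOrder k ⌊exp (lam * k)⌋₊) (j := 1)
      (W := 2 * ((⌊exp (lam * k)⌋₊ : ℝ) + 1)) hx0 (show 0 ≤ C * Real.sqrt k by positivity)
      (by positivity) (by linarith) (by rw [pow_one]; exact h k _)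
    have h4 : log 4 ≤ 2 := by
      have : log 4 = 2 * log 2 := by
        rw [show (4 : ℝ) = 2 ^ 2 by norm_num, log_pow]
        norm_num
      have := log_two_lt_d9
      linarith
    push_cast at h3 ⊢
    linarith
  · filter_upwards [eventually_ge_atTop 4] with k hk
    have h2 := min_le_twOrder k ⌊exp (lam * k)⌋₊ (by omega)
    have h3 := Nat.lt_floor_add_one (exp (lam * k))
    have h4 := ramsey_lower k hk
    have h5 : exp (lam * k - 2) ≤ ((min (⌊exp (lam * k)⌋₊ + 2) (ramsey k - 1) : ℕ) : ℝ) := by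
      have hr : (1 : ℝ) ≤ ramsey k := by
        have := exp_pos (log 2 / 2 * k - 2)
        linarith
      have hr' : 1 ≤ ramsey k := by exact_mod_cast hr
      rw [Nat.cast_min, Nat.cast_sub hr']
      push_cast
      refine le_min ?_ ?_
      · have : exp (lam * k - 2) ≤ exp (lam * k) := exp_le_exp.2 (by linarith)
        linarith
      · refine le_trans (exp_le_exp.2 ?_) h4
        have : lam * k ≤ log 2 / 2 * k := mul_le_mul_of_nonneg_right h1 (Nat.cast_nonneg k)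
        linarith
    have h6 : exp (lam * k - 2) ≤ (twOrder k ⌊exp (lam * k)⌋₊ : ℝ) := by
      refine h5.trans ?_
      exact_mod_cast h2
    have h7 := log_le_log (exp_pos _) h6
    rw [log_exp] at h7
    push_cast
    linarith

theorem rate_mw (lam : ℝ) (h0 : 0 < lam) (h1 : lam ≤ log 2 / 2) :
    Tendsto (fun k : ℕ => log (mwOrder k ⌊exp (lam * k)⌋₊) / k) atTop (𝓝 lam) := by
  obtain ⟨C, hC, h⟩ := upper_one_mw
  have hx : Tendsto (fun k : ℕ => lam * (k : ℝ)) atTop atTop :=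
    tendsto_natCast_atTop_atTop.const_mul_atTop h0
  have key := squeeze (fun k => mwOrder k ⌊exp (lam * k)⌋₊) (fun k => lam * k)
    (fun k => Real.sqrt k) 1 C 2 hx (sqrt_div lam h0) ?_ ?_
  · rw [Nat.cast_one] at key
    have h2 := key.mul_const lam
    rw [one_mul] at h2
    refine h2.congr' ?_
    filter_upwards [eventually_ge_atTop 1] with k hk
    have hkpos : (0 : ℝ) < k := by exact_mod_cast hk
    field_simp
  · refine Eventually.of_forall (fun k => ?_)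
    have hx0 : 0 ≤ lam * (k : ℝ) := by positivity
    have h1 : (⌊exp (lam * k)⌋₊ : ℝ) ≤ exp (lam * k) := Nat.floor_le (exp_pos _).le
    have h2 : (1 : ℝ) ≤ exp (lam * k) := one_le_exp hx0
    have h3 := log_upper (N := mwOrder k ⌊exp (lam * k)⌋₊) (j := 1)
      (W := 2 * (⌊exp (lam * k)⌋₊ : ℝ)) hx0 (show 0 ≤ C * Real.sqrt k by positivity)
      (by positivity) (by linarith) (by rw [pow_one]; exact h k _)
    have h4 : log 4 ≤ 2 := by
      have : log 4 = 2 * log 2 := by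
        rw [show (4 : ℝ) = 2 ^ 2 by norm_num, log_pow]
        norm_num
      have := log_two_lt_d9
      linarith
    push_cast at h3 ⊢
    linarith
  · filter_upwards [eventually_ge_atTop 4] with k hk
    have h3 := Nat.lt_floor_add_one (exp (lam * k))
    have h3' : (1 : ℝ) ≤ exp (lam * k) := one_le_exp (by positivity)
    have h3'' : 1 ≤ ⌊exp (lam * k)⌋₊ := Nat.le_floor (by simpa using h3')
    have h2 := min_le_mwOrder k ⌊exp (lam * k)⌋₊ (by omega) h3''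
    have h3r : (1 : ℝ) ≤ ⌊exp (lam * k)⌋₊ := by exact_mod_cast h3''
    have h4 := ramsey_lower k hk
    have h5 : exp (lam * k - 2) ≤ ((min (⌊exp (lam * k)⌋₊) (ramsey k - 1) : ℕ) : ℝ) := by
      have hr : (1 : ℝ) ≤ ramsey k := by
        have := exp_pos (log 2 / 2 * k - 2)
        linarith
      have hr' : 1 ≤ ramsey k := by exact_mod_cast hr
      rw [Nat.cast_min, Nat.cast_sub hr']
      push_cast
      refine le_min ?_ ?_
      · have e1 : exp (lam * k) = exp (lam * k - 2) * exp 2 := by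
          rw [← exp_add]
          congr 1
          ring
        have e2 : (3 : ℝ) ≤ exp 2 := by
          have := add_one_le_exp (2 : ℝ)
          linarith
        have e3 := exp_pos (lam * k - 2)
        nlinarith
      · refine le_trans (exp_le_exp.2 ?_) h4
        have : lam * k ≤ log 2 / 2 * k := mul_le_mul_of_nonneg_right h1 (Nat.cast_nonneg k)
        linarith
    have h6 : exp (lam * k - 2) ≤ (mwOrder k ⌊exp (lam * k)⌋₊ : ℝ) := by
      refine h5.trans ?_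
      exact_mod_cast h2
    have h7 := log_le_log (exp_pos _) h6
    rw [log_exp] at h7
    push_cast
    linarith

end Pool.Agent.N920.TW
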