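import Pool.Agent.N920.TW.Upper

/-!
# Largest colourings of bounded twin-width and of bounded module-width
-/

namespace Pool.Agent.N920.TW

open Finset Real

open Classical

open Pool.Agent.Y422.TW

attribute [-instance] instDecidableEqProd

/-- The colouring with colour classes `G` and `Gᶜ` has no monochromatic `K_k`. -/
def NoMono {V : Type*} (G : SimpleGraph V) (k : ℕ) : Prop :=
  G.CliqueFree k ∧ Gᶜ.CliqueFree k

/-- The largest number of vertices of a colouring of twin-width at most `t` without monochromatic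
`K_k`. -/
noncomputable def twOrder (k t : ℕ) : ℕ :=
  sSup {n : ℕ | ∃ (V : Type) (_ : Fintype V) (G : SimpleGraph V),
    Fintype.card V = n ∧ NoMono G k ∧ TwinWidthLE G t}

/-- The largest number of vertices of a colouring of module-width at most `c` without monochromatic
`K_k`. -/
noncomputable def mwOrder (k c : ℕ) : ℕ :=
  sSup {n : ℕ | ∃ (V : Type) (_ : Fintype V) (G : SimpleGraph V),
    Fintype.card V = n ∧ NoMono G k ∧ ModuleWidthLE G c}

/-- The diagonal Ramsey number `R(k,k)`. -/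
noncomputable def ramsey (k : ℕ) : ℕ :=
  sInf {n : ℕ | ∀ G : SimpleGraph (Fin n), ¬ NoMono G k}

/-- The upper bound for twin-width. -/
theorem upper_tw (j : ℕ) : ∃ C : ℝ, 0 < C ∧
    ∀ (V : Type) [Fintype V] (G : SimpleGraph V) (t k : ℕ), NoMono G k → TwinWidthLE G t →
      (Fintype.card V : ℝ) ≤
        (2 * ((t : ℝ) + 1)) ^ j * exp (C * (k : ℝ) ^ ((1 : ℝ) / ((j : ℝ) + 1))) := by
  obtain ⟨C, hC, h⟩ := upperP j
  refine ⟨C, hC, ?_⟩
  intro V _ G t k h1 h2
  refine h V G ((t : ℝ) + 1) k ?_ (fun s hs => pair_lemma G t h2 s hs) h1.1 h1.2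
  have : (0 : ℝ) ≤ t := Nat.cast_nonneg t
  linarith

/-- The upper bound for module-width. -/
theorem upper_mw (j : ℕ) : ∃ C : ℝ, 0 < C ∧
    ∀ (V : Type) [Fintype V] (G : SimpleGraph V) (c k : ℕ), NoMono G k → ModuleWidthLE G c →
      (Fintype.card V : ℝ) ≤
        (2 * (c : ℝ)) ^ j * exp (C * (k : ℝ) ^ ((1 : ℝ) / ((j : ℝ) + 1))) := by
  obtain ⟨C, hC, h⟩ := upperP j
  refine ⟨C, hC, ?_⟩
  intro V _ G c k h1 h2
  rcases isEmpty_or_nonempty V with hV | hV
  · rw [Fintype.card_eq_zero, Nat.cast_zero]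
    positivity
  · have hc := one_le_of_moduleWidthLE h2
    exact h V G (c : ℝ) k (by exact_mod_cast hc) (fun s hs => module_pair G c hc h2 s hs) h1.1 h1.2

/-- Every colouring without monochromatic `K_k` has at most `exp (C k)` vertices. -/
theorem upper_all : ∃ C : ℝ, 0 < C ∧ ∀ (V : Type) [Fintype V] (G : SimpleGraph V) (k : ℕ),
    NoMono G k → (Fintype.card V : ℝ) ≤ exp (C * k) := by
  obtain ⟨C, hC, h⟩ := upper_tw 0
  refine ⟨C, hC, ?_⟩
  intro V _ G k h1
  rcases isEmpty_or_nonempty V with hV | hV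
  · rw [Fintype.card_eq_zero, Nat.cast_zero]
    positivity
  · have := h V G (Fintype.card V) k h1 (small_twinWidth G _ (by omega))
    simpa using this

theorem bdd_all (k : ℕ) : BddAbove {n : ℕ | ∃ (V : Type) (_ : Fintype V) (G : SimpleGraph V),
    Fintype.card V = n ∧ NoMono G k} := by
  obtain ⟨C, hC, h⟩ := upper_all
  refine ⟨⌊exp (C * k)⌋₊, ?_⟩
  rintro n ⟨V, hV, G, rfl, h1⟩
  exact Nat.le_floor (h V G k h1)

theorem bdd_tw (k t : ℕ) : BddAbove {n : ℕ | ∃ (V : Type) (_ : Fintype V) (G : SimpleGraph V),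
    Fintype.card V = n ∧ NoMono G k ∧ TwinWidthLE G t} := by
  refine (bdd_all k).mono ?_
  rintro n ⟨V, hV, G, h1, h2, -⟩
  exact ⟨V, hV, G, h1, h2⟩

theorem bdd_mw (k c : ℕ) : BddAbove {n : ℕ | ∃ (V : Type) (_ : Fintype V) (G : SimpleGraph V),
    Fintype.card V = n ∧ NoMono G k ∧ ModuleWidthLE G c} := by
  refine (bdd_all k).mono ?_
  rintro n ⟨V, hV, G, h1, h2, -⟩
  exact ⟨V, hV, G, h1, h2⟩

theorem le_twOrder {V : Type} [Fintype V] {G : SimpleGraph V} {k t : ℕ} (h1 : NoMono G k)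
    (h2 : TwinWidthLE G t) : Fintype.card V ≤ twOrder k t :=
  le_csSup (bdd_tw k t) ⟨V, inferInstance, G, rfl, h1, h2⟩

theorem le_mwOrder {V : Type} [Fintype V] {G : SimpleGraph V} {k c : ℕ} (h1 : NoMono G k)
    (h2 : ModuleWidthLE G c) : Fintype.card V ≤ mwOrder k c :=
  le_csSup (bdd_mw k c) ⟨V, inferInstance, G, rfl, h1, h2⟩

theorem sSup_le_real {P : ℕ → Prop} (hb : BddAbove {n | P n}) {B : ℝ} (hB : 0 ≤ B)
    (h : ∀ n, P n → (n : ℝ) ≤ B) : ((sSup {n | P n} : ℕ) : ℝ) ≤ B := by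
  rcases Set.eq_empty_or_nonempty {n | P n} with he | hne
  · rw [he]
    simpa using hB
  · exact h _ (Nat.sSup_mem hne hb)

theorem twOrder_le {k t : ℕ} {B : ℝ} (hB : 0 ≤ B)
    (h : ∀ (V : Type) [Fintype V] (G : SimpleGraph V), NoMono G k → TwinWidthLE G t →
      (Fintype.card V : ℝ) ≤ B) : (twOrder k t : ℝ) ≤ B := by
  refine sSup_le_real (bdd_tw k t) hB ?_
  rintro n ⟨V, hV, G, rfl, h1, h2⟩
  exact h V G h1 h2

theorem mwOrder_le {k c : ℕ} {B : ℝ} (hB : 0 ≤ B)
    (h : ∀ (V : Type) [Fintype V] (G : SimpleGraph V), NoMono G k → ModuleWidthLE G c →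
      (Fintype.card V : ℝ) ≤ B) : (mwOrder k c : ℝ) ≤ B := by
  refine sSup_le_real (bdd_mw k c) hB ?_
  rintro n ⟨V, hV, G, rfl, h1, h2⟩
  exact h V G h1 h2

theorem NoMono.comap {V W : Type*} {G : SimpleGraph V} {k : ℕ} (h : NoMono G k) (f : W ↪ V) :
    NoMono (G.comap f) k := by
  constructor
  · exact h.1.comap ⟨(SimpleGraph.Embedding.comap f G).toCopy⟩
  · have e : (G.comap f)ᶜ = Gᶜ.comap f := by
      ext x y
      rw [SimpleGraph.compl_adj, SimpleGraph.comap_adj, SimpleGraph.comap_adj,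
        SimpleGraph.compl_adj, f.injective.ne_iff]
    rw [e]
    exact h.2.comap ⟨(SimpleGraph.Embedding.comap f Gᶜ).toCopy⟩

theorem ramsey_mem (k : ℕ) : ∀ G : SimpleGraph (Fin (ramsey k)), ¬ NoMono G k := by
  obtain ⟨C, hC, h⟩ := upper_all
  have hne : {n : ℕ | ∀ G : SimpleGraph (Fin n), ¬ NoMono G k}.Nonempty := by
    refine ⟨⌊exp (C * k)⌋₊ + 1, ?_⟩
    intro G hG
    have h1 := h _ G k hG
    rw [Fintype.card_fin] at h1
    have h2 := Nat.lt_floor_add_one (exp (C * k))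
    push_cast at h1
    linarith
  exact Nat.sInf_mem hne

theorem card_lt_ramsey {V : Type} [Fintype V] {G : SimpleGraph V} {k : ℕ} (h : NoMono G k) :
    Fintype.card V < ramsey k := by
  by_contra hcon
  push Not at hcon
  obtain ⟨f⟩ : Nonempty (Fin (ramsey k) ↪ V) := by
    rw [Function.Embedding.nonempty_iff_card_le, Fintype.card_fin]
    exact hcon
  exact ramsey_mem k _ (h.comap f)

theorem exists_of_lt_ramsey {n k : ℕ} (h : n < ramsey k) : ∃ G : SimpleGraph (Fin n), NoMono G k := by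
  have := Nat.notMem_of_lt_sInf h
  simpa using this

/-- Lexicographic powers of random graphs. -/
theorem powerM (m T t : ℕ) (hm : 1 ≤ m) (hT : 2 ^ m ≤ T) (ht : 2 ^ m ≤ t + 2) (j : ℕ) :
    ∃ (V : Type) (_ : Fintype V) (_ : Nonempty V) (G : SimpleGraph V),
      Fintype.card V = (2 ^ m) ^ (j + 1) ∧ NoMono G ((2 * m + 1) ^ (j + 1) + 1) ∧
        TwinWidthLE G t ∧ ModuleWidthLE G T := by
  obtain ⟨G0, h1, h2⟩ := erdos m hm
  have hpow : 2 ≤ 2 ^ m := by
    calc 2 = 2 ^ 1 := by norm_num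
      _ ≤ 2 ^ m := Nat.pow_le_pow_right (by norm_num) hm
  have hne : Nonempty (Fin (2 ^ m)) := ⟨⟨0, by omega⟩⟩
  have hc : Fintype.card (Fin (2 ^ m)) ≤ t + 2 := by
    rw [Fintype.card_fin]
    exact ht
  have hc' : Fintype.card (Fin (2 ^ m)) ≤ T := by
    rw [Fintype.card_fin]
    exact hT
  induction j with
  | zero =>
    refine ⟨Fin (2 ^ m), inferInstance, hne, G0, by simp, ⟨?_, ?_⟩, small_twinWidth G0 _ hc,
      small_moduleWidth G0 hc'⟩
    · simpa using h1
    · simpa using h2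
  | succ j ih =>
    obtain ⟨V, hV, hVne, G, g1, ⟨g2, g3⟩, g4, g5⟩ := ih
    refine ⟨Fin (2 ^ m) × V, inferInstance, inferInstance, lex G0 G, ?_, ⟨?_, ?_⟩,
      lex_twinWidth G0 G _ hc g4, lex_moduleWidth G0 G hc' g5⟩
    · rw [Fintype.card_prod, Fintype.card_fin, g1, pow_succ (2 ^ m) (j + 1)]
      ring
    · have := lex_cliqueFree G0 G (a := 2 * m + 1) (b := (2 * m + 1) ^ (j + 1)) h1 g2
      rw [pow_succ (2 * m + 1) (j + 1), mul_comm]
      exact this
    · rw [lex_compl]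
      have := lex_cliqueFree G0ᶜ Gᶜ (a := 2 * m + 1) (b := (2 * m + 1) ^ (j + 1)) h2 g3
      rw [pow_succ (2 * m + 1) (j + 1), mul_comm]
      exact this

theorem NoMono.mono {V : Type*} {G : SimpleGraph V} {k l : ℕ} (h : NoMono G k) (hkl : k ≤ l) :
    NoMono G l := ⟨h.1.mono hkl, h.2.mono hkl⟩

theorem half_pow (T i : ℕ) : ((T : ℝ) / 2) ^ i ≤ (((2 ^ Nat.log 2 T) ^ i : ℕ) : ℝ) := by
  push_cast
  refine pow_le_pow_left₀ (by positivity) ?_ _
  have := Nat.lt_pow_succ_log_self (show 1 < 2 by norm_num) T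
  have h2 : (T : ℝ) < 2 ^ (Nat.log 2 T + 1) := by exact_mod_cast this
  rw [pow_succ] at h2
  linarith

/-- The lower bound for twin-width. -/
theorem lower_tw (j k t : ℕ) (hj : 1 ≤ j) (hk : (2 * Nat.log 2 (t + 2) + 1) ^ j < k) :
    (((t : ℝ) + 2) / 2) ^ j ≤ twOrder k t := by
  obtain ⟨i, rfl⟩ : ∃ i, j = i + 1 := ⟨j - 1, by omega⟩
  have hm : 1 ≤ Nat.log 2 (t + 2) := Nat.log_pos (by norm_num) (by omega)
  have hl := Nat.pow_log_le_self 2 (show t + 2 ≠ 0 by omega)
  obtain ⟨V, hV, hne, G, g1, g2, g3, -⟩ := powerM (Nat.log 2 (t + 2)) (t + 2) t hm hl hl i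
  have h1 := half_pow (t + 2) (i + 1)
  rw [← g1] at h1
  push_cast at h1
  refine h1.trans ?_
  exact_mod_cast le_twOrder (g2.mono (by omega)) g3

/-- The lower bound for module-width. -/
theorem lower_mw (j k c : ℕ) (hj : 1 ≤ j) (hc : 2 ≤ c) (hk : (2 * Nat.log 2 c + 1) ^ j < k) :
    ((c : ℝ) / 2) ^ j ≤ mwOrder k c := by
  obtain ⟨i, rfl⟩ : ∃ i, j = i + 1 := ⟨j - 1, by omega⟩
  have hm : 1 ≤ Nat.log 2 c := Nat.log_pos (by norm_num) hc
  have hl := Nat.pow_log_le_self 2 (show c ≠ 0 by omega)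
  obtain ⟨V, hV, hne, G, g1, g2, -, g3⟩ := powerM (Nat.log 2 c) c c hm hl (by omega) i
  have h1 := half_pow c (i + 1)
  rw [← g1] at h1
  refine h1.trans ?_
  exact_mod_cast le_mwOrder (g2.mono (by omega)) g3

theorem min_le_twOrder (k t : ℕ) (hk : 2 ≤ k) : min (t + 2) (ramsey k - 1) ≤ twOrder k t := by
  have hr : 1 < ramsey k := by
    have h1 : NoMono (⊥ : SimpleGraph (Fin 1)) k :=
      ⟨SimpleGraph.cliqueFree_of_card_lt (by rw [Fintype.card_fin]; omega),
        SimpleGraph.cliqueFree_of_card_lt (by rw [Fintype.card_fin]; omega)⟩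
    have := card_lt_ramsey h1
    rwa [Fintype.card_fin] at this
  set n := min (t + 2) (ramsey k - 1) with hn
  have hn1 : n < ramsey k := by omega
  have hn2 : 1 ≤ n := by omega
  obtain ⟨G, hG⟩ := exists_of_lt_ramsey hn1
  have : Nonempty (Fin n) := ⟨⟨0, by omega⟩⟩
  have h2 := le_twOrder hG (small_twinWidth G t (by rw [Fintype.card_fin]; omega))
  rwa [Fintype.card_fin] at h2

theorem min_le_mwOrder (k c : ℕ) (hk : 2 ≤ k) (hc : 1 ≤ c) :
    min c (ramsey k - 1) ≤ mwOrder k c := by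
  have hr : 1 < ramsey k := by
    have h1 : NoMono (⊥ : SimpleGraph (Fin 1)) k :=
      ⟨SimpleGraph.cliqueFree_of_card_lt (by rw [Fintype.card_fin]; omega),
        SimpleGraph.cliqueFree_of_card_lt (by rw [Fintype.card_fin]; omega)⟩
    have := card_lt_ramsey h1
    rwa [Fintype.card_fin] at this
  set n := min c (ramsey k - 1) with hn
  have hn1 : n < ramsey k := by omega
  have hn2 : 1 ≤ n := by omega
  obtain ⟨G, hG⟩ := exists_of_lt_ramsey hn1
  have : Nonempty (Fin n) := ⟨⟨0, by omega⟩⟩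
  have h2 := le_mwOrder hG (small_moduleWidth G (c := c) (by rw [Fintype.card_fin]; omega))
  rwa [Fintype.card_fin] at h2

theorem twOrder_lt_ramsey (k t : ℕ) (hk : 2 ≤ k) : twOrder k t < ramsey k := by
  rcases Set.eq_empty_or_nonempty {n : ℕ | ∃ (V : Type) (_ : Fintype V) (G : SimpleGraph V),
    Fintype.card V = n ∧ NoMono G k ∧ TwinWidthLE G t} with he | hne
  · have h0 : twOrder k t = 0 := by
      rw [twOrder, he]
      simp
    have h1 : NoMono (⊥ : SimpleGraph (Fin 1)) k :=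
      ⟨SimpleGraph.cliqueFree_of_card_lt (by rw [Fintype.card_fin]; omega),
        SimpleGraph.cliqueFree_of_card_lt (by rw [Fintype.card_fin]; omega)⟩
    have := card_lt_ramsey h1
    omega
  · obtain ⟨V, hV, G, h1, h2, -⟩ := Nat.sSup_mem hne (bdd_tw k t)
    have h3 := card_lt_ramsey h2
    rw [h1] at h3
    exact h3

theorem mwOrder_lt_ramsey (k c : ℕ) (hk : 2 ≤ k) : mwOrder k c < ramsey k := by
  rcases Set.eq_empty_or_nonempty {n : ℕ | ∃ (V : Type) (_ : Fintype V) (G : SimpleGraph V),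
    Fintype.card V = n ∧ NoMono G k ∧ ModuleWidthLE G c} with he | hne
  · have h0 : mwOrder k c = 0 := by
      rw [mwOrder, he]
      simp
    have h1 : NoMono (⊥ : SimpleGraph (Fin 1)) k :=
      ⟨SimpleGraph.cliqueFree_of_card_lt (by rw [Fintype.card_fin]; omega),
        SimpleGraph.cliqueFree_of_card_lt (by rw [Fintype.card_fin]; omega)⟩
    have := card_lt_ramsey h1
    omega
  · obtain ⟨V, hV, G, h1, h2, -⟩ := Nat.sSup_mem hne (bdd_mw k c)
    have h3 := card_lt_ramsey h2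
    rw [h1] at h3
    exact h3

end Pool.Agent.N920.TW
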