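import Pool.Agent.Y422.TW.Final

/-!
# The upper bound for classes with the pair property, and module-width
-/

namespace Pool.Agent.N920.TW

open Finset Real

open Classical

open Pool.Agent.Y422.TW

attribute [-instance] instDecidableEqProd

/-- `levels` for every graph with the pair property. -/
theorem levelsP (j : ℕ) : ∃ c : ℝ, 0 < c ∧ ∀ (V : Type) (G : SimpleGraph V) (T : ℝ), 1 ≤ T →
    (∀ s : ℝ, 1 ≤ s → PairProp G s (2 * s * T)) → ∀ Y : ℝ, 0 < Y → ∀ U : Finset V,
      (2 * T) ^ j * exp ((j + 1) * Y) ≤ U.card → Lvl G (j + 1) c Y U := by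
  induction j with
  | zero =>
    refine ⟨1 / 4, by norm_num, ?_⟩
    intro V G T _ _ Y _ U hU
    apply base G U
    simpa using hU
  | succ j ih =>
    obtain ⟨c, hc, ih⟩ := ih
    obtain ⟨K, hK, hKan⟩ := analytic (j + 1) (by omega) c hc
    refine ⟨1 / (2 * K), by positivity, ?_⟩
    intro V G T hT hP Y hY U hU
    set s : ℝ := (2 * T) ^ j * exp ((j + 1) * Y) with hs
    have ht1 : (1 : ℝ) ≤ 2 * T := by linarith
    have hs1 : 1 ≤ s := by
      rw [hs]
      have h1 : (1 : ℝ) ≤ (2 * T) ^ j := one_le_pow₀ ht1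
      have h2 : (1 : ℝ) ≤ exp ((j + 1) * Y) := one_le_exp (by positivity)
      nlinarith
    refine step G (s := s) (D := 2 * s * T) hs1 (by nlinarith) hY hK hKan
      (hP s hs1) (fun A hA => ih V G T hT hP Y hY A hA) U ?_
    have e : 2 * s * T * exp Y = (2 * T) ^ (j + 1) * exp (((j + 1 : ℕ) + 1) * Y) := by
      rw [hs]
      have : exp (((j + 1 : ℕ) + 1) * Y) = exp ((j + 1) * Y) * exp Y := by
        rw [← exp_add]
        congr 1
        push_cast
        ring
      rw [this]
      ring
    rw [e]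
    exact hU

/-- The upper bound, for every graph with the pair property. -/
theorem upperP (j : ℕ) : ∃ C : ℝ, 0 < C ∧
    ∀ (V : Type) [Fintype V] (G : SimpleGraph V) (T : ℝ) (k : ℕ), 1 ≤ T →
      (∀ s : ℝ, 1 ≤ s → PairProp G s (2 * s * T)) → G.CliqueFree k → Gᶜ.CliqueFree k →
      (Fintype.card V : ℝ) ≤ (2 * T) ^ j * exp (C * (k : ℝ) ^ ((1 : ℝ) / ((j : ℝ) + 1))) := by
  obtain ⟨c, hc, h⟩ := levelsP j
  have hj0 : ((j : ℝ) + 1) ≠ 0 := by positivity
  refine ⟨((j : ℝ) + 1) * (2 / c) ^ ((1 : ℝ) / ((j : ℝ) + 1)), by positivity, ?_⟩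
  intro V _ G T k hT hP h1 h2
  rcases Nat.eq_zero_or_pos k with rfl | hk
  · exact absurd h1 (by simp)
  by_contra hcon
  push Not at hcon
  have hk' : (0 : ℝ) < k := by exact_mod_cast hk
  set Y : ℝ := (2 / c * k) ^ ((1 : ℝ) / ((j : ℝ) + 1)) with hY
  have hYpos : 0 < Y := by rw [hY]; positivity
  have hYpow : Y ^ (j + 1) = 2 / c * k := by
    have e0 : (((j + 1 : ℕ) : ℝ)) = (j : ℝ) + 1 := by push_cast; ring
    rw [hY, ← rpow_natCast, ← rpow_mul (by positivity), e0, one_div, inv_mul_cancel₀ hj0,
      rpow_one]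
  have e : ((j : ℝ) + 1) * (2 / c) ^ ((1 : ℝ) / ((j : ℝ) + 1)) * (k : ℝ) ^ ((1 : ℝ) / ((j : ℝ) + 1)) =
      (j + 1) * Y := by
    rw [hY, mul_rpow (by positivity) (by positivity)]
    ring
  rw [e] at hcon
  have h3 := (h V G T hT hP Y hYpos Finset.univ (by
    rw [card_univ]
    simpa using hcon.le) 1 le_rfl).1
  rw [hYpow, one_pow, one_mul] at h3
  have h4 : (w G Finset.univ : ℝ) + 1 ≤ k := by exact_mod_cast w_lt G h1 Finset.univ
  have h5 : (w Gᶜ Finset.univ : ℝ) + 1 ≤ k := by exact_mod_cast w_lt Gᶜ h2 Finset.univ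
  have h6 : exp (-1) ≤ 1 := exp_le_one_iff.2 (by norm_num)
  have h7 : exp (-1) * w Gᶜ Finset.univ ≤ w Gᶜ Finset.univ := by
    have : (0 : ℝ) ≤ w Gᶜ Finset.univ := Nat.cast_nonneg _
    nlinarith
  have h8 : c * (2 / c * k) = 2 * k := by field_simp
  linarith

variable {V W : Type*}

/-- The number of different neighbourhoods outside `S` of the vertices of `S`. -/
noncomputable def types [Fintype V] (G : SimpleGraph V) (S : Finset V) : ℕ :=
  (S.image (fun v => Finset.univ.filter (fun u => u ∉ S ∧ G.Adj v u))).card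

/-- `Dec G c S`: the set `S` can be built from single vertices by disjoint unions of two sets, such
that for every set on the way its vertices have at most `c` different neighbourhoods outside it. -/
inductive Dec [Fintype V] (G : SimpleGraph V) (c : ℕ) : Finset V → Prop
  | single (v : V) (h : types G {v} ≤ c) : Dec G c {v}
  | union (S T : Finset V) (hS : Dec G c S) (hT : Dec G c T) (hST : Disjoint S T)
      (h : types G (S ∪ T) ≤ c) : Dec G c (S ∪ T)

/-- The module-width of `G` is at most `c`. -/
def ModuleWidthLE [Fintype V] (G : SimpleGraph V) (c : ℕ) : Prop := Dec G c Finset.univ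

theorem Dec.node [Fintype V] {G : SimpleGraph V} {c : ℕ} {S₀ : Finset V} (h : Dec G c S₀)
    (U : Finset V) (x : ℝ) (hx : 1 ≤ x) (hU : x ≤ (S₀ ∩ U).card) :
    ∃ S : Finset V, types G S ≤ c ∧ x ≤ (S ∩ U).card ∧ ((S ∩ U).card : ℝ) ≤ 2 * x := by
  induction h with
  | single v hv =>
    refine ⟨{v}, hv, hU, ?_⟩
    have h1 : (({v} : Finset V) ∩ U).card ≤ 1 := (card_le_card inter_subset_left).trans (by simp)
    have h2 : ((({v} : Finset V) ∩ U).card : ℝ) ≤ 1 := by exact_mod_cast h1
    linarith
  | union S T hS hT hST hty ihS ihT =>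
    by_cases h1 : x ≤ (S ∩ U).card
    · exact ihS h1
    · by_cases h2 : x ≤ (T ∩ U).card
      · exact ihT h2
      · push Not at h1 h2
        refine ⟨S ∪ T, hty, hU, ?_⟩
        have h3 : ((S ∪ T) ∩ U).card ≤ (S ∩ U).card + (T ∩ U).card := by
          rw [union_inter_distrib_right]
          exact card_union_le _ _
        have h4 : (((S ∪ T) ∩ U).card : ℝ) ≤ (S ∩ U).card + (T ∩ U).card := by exact_mod_cast h3
        linarith

theorem module_pair [Fintype V] (G : SimpleGraph V) (c : ℕ) (hc : 1 ≤ c) (h : ModuleWidthLE G c)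
    (s : ℝ) (hs : 1 ≤ s) : PairProp G s (2 * s * c) := by
  intro U hU
  have hc' : (1 : ℝ) ≤ c := by exact_mod_cast hc
  by_cases hbig : s * c ≤ U.card
  · obtain ⟨S, h1, h2, h3⟩ := h.node U (s * c) (by nlinarith) (by rwa [univ_inter])
    set f : V → Finset V := fun v => Finset.univ.filter (fun u => u ∉ S ∧ G.Adj v u) with hf
    have hex : ∃ N : Finset V, s ≤ (((S ∩ U).filter (fun v => f v = N)).card : ℝ) := by
      by_contra hcon
      push Not at hcon
      have h4 : (S ∩ U).card = ∑ N ∈ S.image f, ((S ∩ U).filter (fun v => f v = N)).card := by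
        apply card_eq_sum_card_fiberwise
        intro v hv
        exact mem_coe.2 (mem_image_of_mem f (mem_inter.1 (mem_coe.1 hv)).1)
      have h5 : ((S ∩ U).card : ℝ) = ∑ N ∈ S.image f, (((S ∩ U).filter (fun v => f v = N)).card : ℝ) := by
        rw [h4]
        push_cast
        rfl
      have hne : (S.image f).Nonempty := by
        rw [image_nonempty]
        have : 0 < (S ∩ U).card := by
          have : (0 : ℝ) < (S ∩ U).card := by nlinarith
          exact_mod_cast this
        obtain ⟨v, hv⟩ := card_pos.1 this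
        exact ⟨v, (mem_inter.1 hv).1⟩
      have h6 : ∑ N ∈ S.image f, (((S ∩ U).filter (fun v => f v = N)).card : ℝ) <
          ∑ N ∈ S.image f, s := sum_lt_sum_of_nonempty hne (fun N _ => hcon N)
      rw [sum_const, nsmul_eq_mul] at h6
      have h7 : ((S.image f).card : ℝ) ≤ c := by exact_mod_cast h1
      have h8 : ((S.image f).card : ℝ) * s ≤ c * s := mul_le_mul_of_nonneg_right h7 (by linarith)
      linarith
    obtain ⟨N, hN⟩ := hex
    have hposA : 0 < ((S ∩ U).filter (fun v => f v = N)).card := by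
      have : (0 : ℝ) < ((S ∩ U).filter (fun v => f v = N)).card := by linarith
      exact_mod_cast this
    refine ⟨(S ∩ U).filter (fun v => f v = N), U ∩ N, (U \ S) \ N, ?_, inter_subset_left, ?_, hN,
      ?_, ?_, ?_⟩
    · exact (filter_subset _ _).trans inter_subset_right
    · exact sdiff_subset.trans sdiff_subset
    · intro a ha r hr
      have h4 := (mem_filter.1 ha).2
      have h5 := (mem_inter.1 hr).2
      rw [← h4] at h5
      exact (mem_filter.1 h5).2.2
    · intro a ha b hb
      obtain ⟨h5, h6⟩ := mem_filter.1 ha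
      obtain ⟨h7, h8⟩ := mem_sdiff.1 hb
      have h9 := (mem_sdiff.1 h7).2
      rw [SimpleGraph.compl_adj]
      refine ⟨?_, ?_⟩
      · rintro rfl
        exact h9 (mem_inter.1 h5).1
      · intro hadj
        apply h8
        rw [← h6]
        exact mem_filter.2 ⟨mem_univ _, h9, hadj⟩
    · have hsub : U ⊆ ((U ∩ N) ∪ ((U \ S) \ N)) ∪ (S ∩ U) := by
        intro u hu
        by_cases hS : u ∈ S
        · exact mem_union_right _ (mem_inter.2 ⟨hS, hu⟩)
        · by_cases hN' : u ∈ N
          · exact mem_union_left _ (mem_union_left _ (mem_inter.2 ⟨hu, hN'⟩))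
          · exact mem_union_left _ (mem_union_right _ (mem_sdiff.2 ⟨mem_sdiff.2 ⟨hu, hS⟩, hN'⟩))
      have h4 := (card_le_card hsub).trans ((card_union_le _ _).trans
        (Nat.add_le_add_right (card_union_le _ _) _))
      have h5 : (U.card : ℝ) ≤ (U ∩ N).card + ((U \ S) \ N).card + (S ∩ U).card := by
        exact_mod_cast h4
      linarith
  · push Not at hbig
    refine ⟨U, ∅, ∅, subset_refl _, empty_subset _, empty_subset _, hU, ?_, ?_, ?_⟩
    · intro a _ r hr
      exact absurd hr (notMem_empty r)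
    · intro a _ r hr
      exact absurd hr (notMem_empty r)
    · have : 0 ≤ s * c := by nlinarith
      simp only [card_empty, Nat.cast_zero]
      linarith

theorem types_le_card [Fintype V] (G : SimpleGraph V) (S : Finset V) : types G S ≤ S.card :=
  card_image_le

theorem one_le_of_moduleWidthLE [Fintype V] [Nonempty V] {G : SimpleGraph V} {c : ℕ}
    (h : ModuleWidthLE G c) : 1 ≤ c := by
  have key : ∀ S, Dec G c S → S.Nonempty → 1 ≤ c := by
    intro S hS hne
    have h2 : types G S ≤ c := by
      cases hS with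
      | single v h => exact h
      | union S T _ _ _ h => exact h
    have h1 : 1 ≤ types G S := by
      rw [types, Nat.one_le_iff_ne_zero, Ne, card_eq_zero, image_eq_empty]
      exact hne.ne_empty
    omega
  exact key _ h univ_nonempty

theorem dec_small [Fintype V] (G : SimpleGraph V) {c : ℕ} (S : Finset V) (hne : S.Nonempty)
    (hS : S.card ≤ c) : Dec G c S := by
  induction hne using Finset.Nonempty.cons_induction with
  | singleton a => exact Dec.single a ((types_le_card G _).trans hS)
  | cons a s ha hs ih =>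
    rw [cons_eq_insert, insert_eq] at hS ⊢
    have h1 : s.card ≤ ({a} ∪ s).card := card_le_card subset_union_right
    have h2 : 1 ≤ s.card := card_pos.2 hs
    refine Dec.union {a} s (Dec.single a ((types_le_card G _).trans ?_)) (ih (h1.trans hS)) ?_
      ((types_le_card G _).trans hS)
    · rw [card_singleton]
      omega
    · rw [disjoint_singleton_left]
      exact ha

theorem small_moduleWidth [Fintype V] [Nonempty V] (G : SimpleGraph V) {c : ℕ}
    (hV : Fintype.card V ≤ c) : ModuleWidthLE G c :=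
  dec_small G _ univ_nonempty (by rwa [card_univ])

theorem dec_slab [Fintype V] [Fintype W] (G : SimpleGraph V) (H : SimpleGraph W) {c : ℕ} (v : V)
    {A : Finset W} (h : Dec H c A) : Dec (lex G H) c (slab v A) := by
  have hty : ∀ A : Finset W, types (lex G H) (slab v A) ≤ types H A := by
    intro A
    set g : W → Finset W := fun a => Finset.univ.filter (fun b => b ∉ A ∧ H.Adj a b) with hg
    set F : Finset W → Finset (V × W) := fun N =>
      Finset.univ.filter (fun x => (x.1 = v ∧ x.2 ∈ N) ∨ G.Adj v x.1) with hF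
    have h1 : (slab v A).image (fun x => Finset.univ.filter (fun y => y ∉ slab v A ∧
        (lex G H).Adj x y)) ⊆ (A.image g).image F := by
      intro N hN
      obtain ⟨x, hx, rfl⟩ := mem_image.1 hN
      obtain ⟨hx1, hx2⟩ := mem_slab.1 hx
      refine mem_image.2 ⟨g x.2, mem_image_of_mem g hx2, ?_⟩
      ext y
      rw [hF, hg, mem_filter, mem_filter, mem_filter, mem_slab]
      show _ ↔ _ ∧ _ ∧ (G.Adj x.1 y.1 ∨ (x.1 = y.1 ∧ H.Adj x.2 y.2))
      rw [hx1]
      constructor
      · rintro ⟨-, ⟨h2, -, h3, h4⟩ | h2⟩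
        · exact ⟨mem_univ _, fun h5 => h3 h5.2, Or.inr ⟨h2.symm, h4⟩⟩
        · refine ⟨mem_univ _, fun h5 => ?_, Or.inl h2⟩
          rw [h5.1] at h2
          exact G.loopless.irrefl _ h2
      · rintro ⟨-, h2, h3 | ⟨h3, h4⟩⟩
        · exact ⟨mem_univ _, Or.inr h3⟩
        · exact ⟨mem_univ _, Or.inl ⟨h3.symm, mem_univ _, fun h5 => h2 ⟨h3.symm, h5⟩, h4⟩⟩
    exact (card_le_card h1).trans card_image_le
  induction h with
  | single a ha =>
    have e : slab v {a} = {(v, a)} := by
      ext x
      rw [mem_slab, mem_singleton, mem_singleton, Prod.ext_iff]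
    have h1 := (hty {a}).trans ha
    rw [e] at h1 ⊢
    exact Dec.single _ h1
  | union S T hS hT hST hh ihS ihT =>
    have h1 := (hty (S ∪ T)).trans hh
    rw [slab_union] at h1 ⊢
    refine Dec.union _ _ ihS ihT ?_ h1
    rw [disjoint_left]
    intro x hx hx'
    exact disjoint_left.1 hST (mem_slab.1 hx).2 (mem_slab.1 hx').2

theorem lex_moduleWidth [Fintype V] [Fintype W] [Nonempty V] (G : SimpleGraph V)
    (H : SimpleGraph W) {c : ℕ} (hV : Fintype.card V ≤ c) (hH : ModuleWidthLE H c) :
    ModuleWidthLE (lex G H) c := by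
  have hty : ∀ S : Finset V, types (lex G H) (S ×ˢ (Finset.univ : Finset W)) ≤ S.card := by
    intro S
    set F : V → Finset (V × W) := fun v =>
      Finset.univ.filter (fun x => x.1 ∉ S ∧ G.Adj v x.1) with hF
    have h1 : (S ×ˢ (Finset.univ : Finset W)).image (fun x => Finset.univ.filter
        (fun y => y ∉ S ×ˢ (Finset.univ : Finset W) ∧ (lex G H).Adj x y)) ⊆ S.image F := by
      intro N hN
      obtain ⟨x, hx, rfl⟩ := mem_image.1 hN
      have hx1 := (mem_product.1 hx).1
      refine mem_image.2 ⟨x.1, hx1, ?_⟩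
      ext y
      rw [hF, mem_filter, mem_filter, mem_product]
      show _ ↔ _ ∧ _ ∧ (G.Adj x.1 y.1 ∨ (x.1 = y.1 ∧ H.Adj x.2 y.2))
      constructor
      · rintro ⟨-, h2, h3⟩
        exact ⟨mem_univ _, fun h4 => h2 h4.1, Or.inl h3⟩
      · rintro ⟨-, h2, h3 | ⟨h3, -⟩⟩
        · exact ⟨mem_univ _, fun h4 => h2 ⟨h4, mem_univ _⟩, h3⟩
        · exact absurd ⟨h3 ▸ hx1, mem_univ _⟩ h2
    exact (card_le_card h1).trans card_image_le
  have hall : ∀ S : Finset V, S.Nonempty → Dec (lex G H) c (S ×ˢ (Finset.univ : Finset W)) := by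
    intro S hS
    induction hS using Finset.Nonempty.cons_induction with
    | singleton a => exact dec_slab G H a hH
    | cons a s ha hs ih =>
      have e : (Finset.cons a s ha) ×ˢ (Finset.univ : Finset W) =
          slab a Finset.univ ∪ (s ×ˢ (Finset.univ : Finset W)) := by
        ext x
        rw [mem_product, mem_union, mem_slab, mem_product, mem_cons]
        tauto
      rw [e]
      refine Dec.union _ _ (dec_slab G H a hH) ih ?_ ?_
      · rw [disjoint_left]
        intro x hx hx'
        have h1 := (mem_slab.1 hx).1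
        rw [← h1] at ha
        exact ha (mem_product.1 hx').1
      · rw [← e]
        refine (hty _).trans (le_trans ?_ hV)
        exact card_le_univ _
  have h := hall Finset.univ univ_nonempty
  rwa [univ_product_univ] at h

end Pool.Agent.N920.TW
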